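import Mathlib

/-!
# Three copies of an edge-ordered graph glued along a triangle of minimal edges
-/

set_option autoImplicit false

open Finset

namespace Pool.Agent.Q110.EO

/-- an injective weakly monotone self-map of a finite ordered set is the identity -/
theorem mono_inj_id {α : Type} (S : Finset α) (r : α → ℕ) (hr : ∀ x ∈ S, ∀ y ∈ S, r x = r y → x = y)
    (T : α → α) (hT : ∀ x ∈ S, T x ∈ S) (hTi : ∀ x ∈ S, ∀ y ∈ S, T x = T y → x = y)
    (hm : ∀ x ∈ S, ∀ y ∈ S, r x < r y → r (T x) ≤ r (T y)) : ∀ x ∈ S, T x = x := by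
  classical
  intro x hx
  by_contra hne
  rcases lt_or_gt_of_ne (fun h => hne (hr _ (hT x hx) _ hx h)) with h | h
  · obtain ⟨e, he, hmin⟩ := exists_min_image (S.filter (fun y => r (T y) < r y)) r
      ⟨x, by simp [hx, h]⟩
    rw [mem_filter] at he
    have hg := hT e he.1
    have h1 : ¬ r (T (T e)) < r (T e) := by
      intro h1
      have := hmin (T e) (by rw [mem_filter]; exact ⟨hg, h1⟩)
      omega
    have h2 := hm _ hg _ he.1 he.2
    have h3 : T (T e) = T e := hr _ (hT _ hg) _ hg (by omega)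
    have h4 := hTi _ hg _ he.1 h3
    have := he.2
    rw [h4] at this
    omega
  · obtain ⟨e, he, hmax⟩ := exists_max_image (S.filter (fun y => r y < r (T y))) r
      ⟨x, by simp [hx, h]⟩
    rw [mem_filter] at he
    have hg := hT e he.1
    have h1 : ¬ r (T e) < r (T (T e)) := by
      intro h1
      have := hmax (T e) (by rw [mem_filter]; exact ⟨hg, h1⟩)
      omega
    have h2 := hm _ he.1 _ hg he.2
    have h3 : T (T e) = T e := hr _ (hT _ hg) _ hg (by omega)
    have h4 := hTi _ hg _ he.1 h3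
    have := he.2
    rw [h4] at this
    omega

/-- `a`, `b` choose the end vertices of the smallest edge of the component -/
structure Roots {V : Type} (G : SimpleGraph V) (r : Sym2 V → ℕ) (a b : V → V) : Prop where
  const : ∀ u w, G.Adj u w → a u = a w ∧ b u = b w
  adj : ∀ u w, G.Adj u w → G.Adj (a u) (b u)
  reach : ∀ u, G.Reachable u (a u)
  min : ∀ u w, G.Adj u w → r s(a u, b u) ≤ r s(u, w)

theorem exists_roots {V : Type} [Fintype V] (G : SimpleGraph V) (r : Sym2 V → ℕ) :
    ∃ a b : V → V, Roots G r a b := by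
  classical
  have h1 : ∀ c : G.ConnectedComponent, ∃ p : V × V, G.connectedComponentMk p.1 = c ∧
      ((∃ x y, G.Adj x y ∧ G.connectedComponentMk x = c) → G.Adj p.1 p.2) ∧
      ∀ x y, G.Adj x y → G.connectedComponentMk x = c → r s(p.1, p.2) ≤ r s(x, y) := by
    intro c
    by_cases h : ∃ x y, G.Adj x y ∧ G.connectedComponentMk x = c
    · obtain ⟨x, y, hxy, hc⟩ := h
      obtain ⟨p, hp, hp'⟩ := exists_min_image
        ((univ : Finset (V × V)).filter (fun p => G.Adj p.1 p.2 ∧ G.connectedComponentMk p.1 = c))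
        (fun p => r s(p.1, p.2)) ⟨(x, y), by simp [hxy, hc]⟩
      rw [mem_filter] at hp
      refine ⟨p, hp.2.2, fun _ => hp.2.1, fun x y h1 h2 => ?_⟩
      exact hp' (x, y) (by rw [mem_filter]; exact ⟨mem_univ _, h1, h2⟩)
    · obtain ⟨x, hx⟩ := c.exists_rep
      refine ⟨(x, x), hx, fun h' => absurd h' h, fun x y h1 h2 => absurd ⟨x, y, h1, h2⟩ h⟩
  choose P hP1 hP2 hP3 using h1
  refine ⟨fun u => (P (G.connectedComponentMk u)).1, fun u => (P (G.connectedComponentMk u)).2,
    ?_, ?_, ?_, ?_⟩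
  · intro u w h
    have : G.connectedComponentMk u = G.connectedComponentMk w :=
      SimpleGraph.ConnectedComponent.sound h.reachable
    rw [this]
    exact ⟨rfl, rfl⟩
  · intro u w h
    exact hP2 _ ⟨u, w, h, rfl⟩
  · intro u
    have := hP1 (G.connectedComponentMk u)
    exact (SimpleGraph.ConnectedComponent.exact this).symm
  · intro u w h
    exact hP3 _ u w h rfl

section
variable {V : Type} {G : SimpleGraph V} {r : Sym2 V → ℕ} {a b : V → V}

theorem Roots.const' (R : Roots G r a b) {u w : V} (h : G.Reachable u w) :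
    a u = a w ∧ b u = b w := by
  obtain ⟨p⟩ := h
  induction p with
  | nil => exact ⟨rfl, rfl⟩
  | cons h p ih =>
    have := R.const _ _ h
    exact ⟨this.1.trans ih.1, this.2.trans ih.2⟩

theorem Roots.reach_iff (R : Roots G r a b) {u w : V} (h : a u = a w) : G.Reachable u w :=
  (R.reach u).trans (h ▸ (R.reach w).symm)

theorem Roots.aa (R : Roots G r a b) (u : V) : a (a u) = a u ∧ b (a u) = b u := by
  have := R.const' (R.reach u)
  exact ⟨this.1.symm, this.2.symm⟩

/-- the vertex `u` in copy `i`; the vertex `b` of copy `i` is the vertex `a` of copy `i + 1` -/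
noncomputable def jj (a b : V → V) (i : Fin 3) (u : V) : V × Fin 3 :=
  open Classical in if u = b u ∧ a u ≠ b u then (a u, i + 1) else (u, i)

theorem jj_eq (R : Roots G r a b) {i k : Fin 3} {u w : V} (h : jj a b i u = jj a b k w) :
    (i = k ∧ u = w) ∨ (k = i + 1 ∧ (u = b u ∧ a u ≠ b u) ∧ w = a u) ∨
      (i = k + 1 ∧ (w = b w ∧ a w ≠ b w) ∧ u = a w) := by
  unfold jj at h
  split_ifs at h with h1 h2 h2
  · left
    rw [Prod.mk.injEq] at h
    refine ⟨add_right_cancel h.2, ?_⟩
    rw [h1.1, h2.1]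
    exact (R.const' (R.reach_iff h.1)).2
  · rw [Prod.mk.injEq] at h
    exact Or.inr (Or.inl ⟨h.2.symm, h1, h.1.symm⟩)
  · rw [Prod.mk.injEq] at h
    exact Or.inr (Or.inr ⟨h.2, h2, h.1⟩)
  · rw [Prod.mk.injEq] at h
    exact Or.inl ⟨h.2, h.1⟩

theorem fin3_ne (i : Fin 3) : i ≠ i + 1 := by decide +revert

theorem jj_inj (R : Roots G r a b) {i : Fin 3} {u w : V} (h : jj a b i u = jj a b i w) :
    u = w := by
  rcases jj_eq R h with h | h | h
  · exact h.2
  · exact absurd h.1 (fin3_ne i)
  · exact absurd h.1 (fin3_ne i)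

/-- the copies of the edges -/
noncomputable def img (a b : V → V) (e : Sym2 V) (i : Fin 3) : Sym2 (V × Fin 3) := e.map (jj a b i)

theorem img_inj (R : Roots G r a b) {e f : Sym2 V} {i k : Fin 3} (he : e ∈ G.edgeSet)
    (hf : f ∈ G.edgeSet) (h : img a b e i = img a b f k) : e = f ∧ i = k := by
  induction e using Sym2.ind with | _ u w => ?_
  induction f using Sym2.ind with | _ x y => ?_
  rw [SimpleGraph.mem_edgeSet] at he hf
  -- two vertices of an edge which both change the copy
  have key : ∀ x y, G.Adj x y → jj a b i u = jj a b k x → jj a b i w = jj a b k y →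
      i = k ∧ u = x ∧ w = y := by
    intro x y hxy h1 h2
    have c1 := R.const u w he
    have c2 := R.const x y hxy
    rcases jj_eq R h1 with h1 | h1 | h1 <;> rcases jj_eq R h2 with h2 | h2 | h2
    · exact ⟨h1.1, h1.2, h2.2⟩
    · exact absurd (h1.1.trans h2.1) (fin3_ne i)
    · exact absurd (h1.1.symm.trans h2.1) (fin3_ne k)
    · exact absurd (h2.1.trans h1.1) (fin3_ne i)
    · exfalso
      apply he.ne
      rw [h1.2.1.1, h2.2.1.1, c1.2]
    · exfalso
      have e1 := h1.1
      have e2 := h2.1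
      revert e1 e2
      clear * -
      decide +revert
    · exact absurd (h2.1.symm.trans h1.1) (fin3_ne k)
    · exfalso
      have e1 := h1.1
      have e2 := h2.1
      revert e1 e2
      clear * -
      decide +revert
    · exfalso
      apply hxy.ne
      rw [h1.2.1.1, h2.2.1.1, c2.2]
  unfold img at h
  rw [Sym2.map_mk, Sym2.map_mk, Sym2.eq_iff] at h
  rcases h with ⟨h1, h2⟩ | ⟨h1, h2⟩
  · obtain ⟨h3, rfl, rfl⟩ := key x y hf h1 h2
    exact ⟨rfl, h3⟩
  · obtain ⟨h3, rfl, rfl⟩ := key y x hf.symm h1 h2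
    exact ⟨Sym2.eq_swap, h3⟩

/-- the glued graph -/
def H0 (G : SimpleGraph V) (a b : V → V) (x y : V × Fin 3) : Prop :=
  ∃ u w i, G.Adj u w ∧ x = jj a b i u ∧ y = jj a b i w

end

end Pool.Agent.Q110.EO
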