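import Mathlib

/-!
# Edge-ordered graphs and minimal-label saturation: definitions
-/

set_option autoImplicit false

namespace Pool.Agent.Q110.EO

/-- an edge-ordered graph: a simple graph with an injective real labelling of its edges
(only the values of `lab` on the edges matter) -/
structure EOG (V : Type) where
  graph : SimpleGraph V
  lab : Sym2 V → ℝ
  inj : Set.InjOn lab graph.edgeSet

/-- `H` contains `F`: an injective map of the vertices sends edges to edges and preserves the
order of the edges -/
def Contains {W V : Type} (F : EOG W) (H : EOG V) : Prop :=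
  ∃ φ : W → V, Function.Injective φ ∧ (∀ u w, F.graph.Adj u w → H.graph.Adj (φ u) (φ w)) ∧
    ∀ e ∈ F.graph.edgeSet, ∀ f ∈ F.graph.edgeSet, F.lab e < F.lab f →
      H.lab (e.map φ) < H.lab (f.map φ)

/-- `H` with the edge `uv` added; the label `x` of `uv` is smaller than all labels of `H` -/
noncomputable def EOG.addMin {V : Type} (H : EOG V) (u v : V) (x : ℝ)
    (hx : ∀ e ∈ H.graph.edgeSet, x < H.lab e) : EOG V where
  graph := H.graph ⊔ SimpleGraph.edge u v
  lab := open Classical in fun e => if e = s(u, v) then x else H.lab e
  inj := by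
    classical
    intro e he f hf h
    have key : ∀ e ∈ (H.graph ⊔ SimpleGraph.edge u v).edgeSet, e ≠ s(u, v) →
        e ∈ H.graph.edgeSet := by
      intro e he hne
      rw [SimpleGraph.edgeSet_sup] at he
      rcases he with he | he
      · exact he
      · exact absurd (by simpa using (SimpleGraph.edgeSet_fromEdgeSet _ ▸ he).1) hne
    simp only at h
    split_ifs at h with h1 h2 h2
    · rw [h1, h2]
    · exact absurd h (hx f (key f hf h2)).ne
    · exact absurd h (hx e (key e he h1)).ne'
    · exact H.inj (key e he h1) (key f hf h2) h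

/-- `H` avoids `F`, and every new edge with a label smaller than all labels of `H` creates a copy
of `F` -/
def Saturated {W V : Type} (F : EOG W) (H : EOG V) : Prop :=
  ¬ Contains F H ∧ ∀ u v, u ≠ v → ¬ H.graph.Adj u v →
    ∀ (x : ℝ) (hx : ∀ e ∈ H.graph.edgeSet, x < H.lab e), Contains F (H.addMin u v x hx)

/-- `sat_m(n, F)` -/
noncomputable def satM {W : Type} (n : ℕ) (F : EOG W) : ℕ :=
  sInf {k | ∃ H : EOG (Fin n), Saturated F H ∧ H.graph.edgeSet.ncard = k}

/-- `e₀ + G`: the disjoint union of `G` with one edge on two new vertices; the new edge receives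
the label `x`, which is smaller than all labels of `G` -/
noncomputable def EOG.e0 {W : Type} (G : EOG W) (x : ℝ)
    (hx : ∀ e ∈ G.graph.edgeSet, x < G.lab e) : EOG (W ⊕ Fin 2) where
  graph := G.graph ⊕g (⊤ : SimpleGraph (Fin 2))
  lab := Function.extend (Sym2.map Sum.inl) G.lab (fun _ => x)
  inj := by
    have hinj : Function.Injective (Sym2.map (Sum.inl : W → W ⊕ Fin 2)) :=
      Sym2.map.injective Sum.inl_injective
    have key : ∀ e ∈ (G.graph ⊕g (⊤ : SimpleGraph (Fin 2))).edgeSet,
        (∃ e' ∈ G.graph.edgeSet, e = Sym2.map Sum.inl e' ∧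
          Function.extend (Sym2.map Sum.inl) G.lab (fun _ => x) e = G.lab e') ∨
        (e = s(Sum.inr 0, Sum.inr 1) ∧
          Function.extend (Sym2.map Sum.inl) G.lab (fun _ => x) e = x) := by
      intro e he
      induction e using Sym2.ind with | _ u v => ?_
      rw [SimpleGraph.mem_edgeSet] at he
      rcases u with u | u <;> rcases v with v | v
      · left
        refine ⟨s(u, v), by simpa using he, by simp, ?_⟩
        have : s((Sum.inl u : W ⊕ Fin 2), Sum.inl v) = Sym2.map Sum.inl s(u, v) := by simp
        rw [this, hinj.extend_apply]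
      · simp at he
      · simp at he
      · right
        have h1 : s((Sum.inr u : W ⊕ Fin 2), Sum.inr v) = s(Sum.inr 0, Sum.inr 1) := by
          have h2 : u ≠ v := by simpa using he
          fin_cases u <;> fin_cases v <;> simp_all
        refine ⟨h1, ?_⟩
        rw [Function.extend_apply']
        rintro ⟨e', he'⟩
        induction e' using Sym2.ind with | _ p q => ?_
        simp at he'
    intro e he f hf h
    rcases key e he with ⟨e', h1, h2, h3⟩ | ⟨h2, h3⟩ <;>
      rcases key f hf with ⟨f', h4, h5, h6⟩ | ⟨h5, h6⟩
    · rw [h3, h6] at h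
      rw [h2, h5, G.inj h1 h4 h]
    · rw [h3, h6] at h
      exact absurd h (hx e' h1).ne'
    · rw [h3, h6] at h
      exact absurd h (hx f' h4).ne
    · rw [h2, h5]

end Pool.Agent.Q110.EO
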