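import Pool.Agent.Q110.EO.Core

/-!
# The glued graph does not contain `e₀ + G`
-/

set_option autoImplicit false

open Finset

namespace Pool.Agent.Q110.EO

section
variable {V : Type} {G : SimpleGraph V} {r : Sym2 V → ℕ} {a b : V → V}

theorem jj_fst (R : Roots G r a b) (i : Fin 3) (u : V) : a (jj a b i u).1 = a u := by
  unfold jj
  split_ifs
  · exact (R.aa u).1
  · rfl

theorem jj_fst_of_ne {i : Fin 3} {u : V} (h : u ≠ b u) : (jj a b i u).1 = u := by
  unfold jj
  rw [if_neg (fun h' => h h'.1)]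

theorem jj_fst_of_eq {i : Fin 3} {u : V} (h : u = a u ∨ u = b u) :
    (jj a b i u).1 = a u := by
  unfold jj
  split_ifs with h1
  · rfl
  · push Not at h1
    rcases h with h | h
    · exact h
    · exact h.trans (h1 h).symm

theorem L1 (R : Roots G r a b) {i k : Fin 3} {u : V} {e : Sym2 V} (h : jj a b i u ∈ img a b e k)
    (ha : u ≠ a u) (hb : u ≠ b u) : u ∈ e ∧ k = i := by
  unfold img at h
  rw [Sym2.mem_map] at h
  obtain ⟨w, hw, h⟩ := h
  rcases jj_eq R h with h | h | h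
  · exact ⟨h.2 ▸ hw, h.1⟩
  · exfalso
    apply ha
    rw [h.2.2, (R.aa w).1]
  · exact absurd h.2.1.1 hb

theorem L2 (R : Roots G r a b) {i k : Fin 3} {u : V} {e : Sym2 V} (h : jj a b i u ∈ img a b e k)
    (hu : u = a u ∨ u = b u) : a u ∈ e ∨ b u ∈ e := by
  unfold img at h
  rw [Sym2.mem_map] at h
  obtain ⟨w, hw, h⟩ := h
  rcases jj_eq R h with h | h | h
  · rcases hu with hu | hu
    · left
      rw [← hu, ← h.2]
      exact hw
    · right
      rw [← hu, ← h.2]
      exact hw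
  · right
    have : b u = b w := by rw [h.2.2, (R.aa w).2]
    rw [this, ← h.2.1.1]
    exact hw
  · left
    rw [← h.2.2]
    exact hw

/-- the copies of the smallest edge of a component form a triangle -/
theorem share (R : Roots G r a b) {u : V} (hu : G.Adj (a u) (b u)) (i k : Fin 3) :
    ∃ x, x ∈ img a b s(a u, b u) i ∧ x ∈ img a b s(a u, b u) k := by
  have ha : ∀ i, jj a b i (a u) = (a u, i) := by
    intro i
    unfold jj
    rw [if_neg]
    rw [(R.aa u).1, (R.aa u).2]
    exact fun h => h.2 h.1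
  have hbb : b (b u) = b u ∧ a (b u) = a u := by
    have := R.const _ _ hu
    rw [(R.aa u).1, (R.aa u).2] at this
    exact ⟨this.2.symm, this.1.symm⟩
  have hb : ∀ i, jj a b i (b u) = (a u, i + 1) := by
    intro i
    unfold jj
    rw [if_pos, hbb.2]
    rw [hbb.1, hbb.2]
    exact ⟨rfl, hu.ne⟩
  have : ∀ i, img a b s(a u, b u) i = s((a u, i), (a u, i + 1)) := by
    intro i
    unfold img
    rw [Sym2.map_mk, ha, hb]
  rw [this, this]
  have h3 : i = k ∨ k = i + 1 ∨ i = k + 1 := by decide +revert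
  rcases h3 with h3 | h3 | h3
  · exact ⟨(a u, i), by simp, by simp [h3]⟩
  · exact ⟨(a u, k), by simp [h3], by simp⟩
  · exact ⟨(a u, i), by simp, by simp [h3]⟩

/-- an embedding of the edges of `G` into the glued graph -/
structure Emb (G : SimpleGraph V) (r : Sym2 V → ℕ) (a b : V → V) (ψ : V → V × Fin 3)
    (T : Sym2 V → Sym2 V) (κ : Sym2 V → Fin 3) : Prop where
  roots : Roots G r a b
  rinj : ∀ e ∈ G.edgeSet, ∀ f ∈ G.edgeSet, r e = r f → e = f
  inj : ∀ e ∈ G.edgeSet, ∀ f ∈ G.edgeSet, ∀ x ∈ e, ∀ y ∈ f, ψ x = ψ y → x = y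
  mem : ∀ e ∈ G.edgeSet, T e ∈ G.edgeSet
  img : ∀ e ∈ G.edgeSet, e.map ψ = img a b (T e) (κ e)
  mono : ∀ e ∈ G.edgeSet, ∀ f ∈ G.edgeSet, r e < r f → r (T e) ≤ r (T f)

variable {ψ : V → V × Fin 3} {T : Sym2 V → Sym2 V} {κ : Sym2 V → Fin 3}

theorem Emb.vert (E : Emb G r a b ψ T κ) {e : Sym2 V} (he : e ∈ G.edgeSet) {u : V} (hu : u ∈ e) :
    ∃ w ∈ T e, jj a b (κ e) w = ψ u := by
  have h : ψ u ∈ e.map ψ := Sym2.mem_map.2 ⟨u, hu, rfl⟩
  rw [E.img e he] at h
  exact Sym2.mem_map.1 h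

theorem Emb.vert' (E : Emb G r a b ψ T κ) {e : Sym2 V} (he : e ∈ G.edgeSet) {w : V}
    (hw : w ∈ T e) : ∃ u ∈ e, ψ u = jj a b (κ e) w := by
  have h : jj a b (κ e) w ∈ EO.img a b (T e) (κ e) := Sym2.mem_map.2 ⟨w, hw, rfl⟩
  rw [← E.img e he] at h
  exact Sym2.mem_map.1 h

theorem Emb.mem_img (E : Emb G r a b ψ T κ) {e : Sym2 V} (he : e ∈ G.edgeSet) {u : V}
    (hu : u ∈ e) : ψ u ∈ EO.img a b (T e) (κ e) := by
  rw [← E.img e he]
  exact Sym2.mem_map.2 ⟨u, hu, rfl⟩

theorem Emb.eq_of (E : Emb G r a b ψ T κ) {e f : Sym2 V} (he : e ∈ G.edgeSet)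
    (hf : f ∈ G.edgeSet) (h1 : T e = T f) (h2 : κ e = κ f) : e = f := by
  have h3 := E.img e he
  rw [h1, h2, ← E.img f hf] at h3
  have h4 := E.inj e he f hf
  clear h1 h2
  induction e using Sym2.ind with | _ u w => ?_
  induction f using Sym2.ind with | _ x y => ?_
  rw [Sym2.map_mk, Sym2.map_mk, Sym2.eq_iff] at h3
  rcases h3 with ⟨h1, h2⟩ | ⟨h1, h2⟩
  · rw [h4 u (Sym2.mem_mk_left _ _) x (Sym2.mem_mk_left _ _) h1,
      h4 w (Sym2.mem_mk_right _ _) y (Sym2.mem_mk_right _ _) h2]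
  · rw [h4 u (Sym2.mem_mk_left _ _) y (Sym2.mem_mk_right _ _) h1,
      h4 w (Sym2.mem_mk_right _ _) x (Sym2.mem_mk_left _ _) h2, Sym2.eq_swap]

/-- the two ends of an edge have the same roots -/
theorem edge_const (R : Roots G r a b) {e : Sym2 V} (he : e ∈ G.edgeSet) {x y : V} (hx : x ∈ e)
    (hy : y ∈ e) : a x = a y ∧ b x = b y := by
  induction e using Sym2.ind with | _ u w => ?_
  rw [SimpleGraph.mem_edgeSet] at he
  have := R.const _ _ he
  rw [Sym2.mem_iff] at hx hy
  rcases hx with rfl | rfl <;> rcases hy with rfl | rfl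
  · exact ⟨rfl, rfl⟩
  · exact this
  · exact ⟨this.1.symm, this.2.symm⟩
  · exact ⟨rfl, rfl⟩

theorem Emb.comp (E : Emb G r a b ψ T κ) {u w : V} (h : G.Reachable u w) :
    a (ψ u).1 = a (ψ w).1 := by
  obtain ⟨p⟩ := h
  induction p with
  | nil => rfl
  | cons h p ih =>
    rename_i x y z
    rw [← ih]
    have he : s(x, y) ∈ G.edgeSet := h
    obtain ⟨x', hx', hx⟩ := E.vert he (Sym2.mem_mk_left x y)
    obtain ⟨y', hy', hy⟩ := E.vert he (Sym2.mem_mk_right x y)
    rw [← hx, ← hy, jj_fst E.roots, jj_fst E.roots]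
    exact (edge_const E.roots (E.mem _ he) hx' hy').1

/-- orbit counting -/
theorem Emb.orbit [Fintype V] (E : Emb G r a b ψ T κ) (O : Finset (Sym2 V)) (u0 : V)
    (hO : ∀ e ∈ O, e ∈ G.edgeSet) (hu : G.Adj (a u0) (b u0))
    (hD : ∀ e ∈ O, ∀ x ∈ e, a x = a u0) (hT : ∀ e ∈ O, T e ∈ O)
    (hμ : s(a u0, b u0) ∈ O) (hne : ∀ e ∈ O, T e ≠ s(a u0, b u0))
    (hsur : ∀ e ∈ O, e ≠ s(a u0, b u0) → ∃ f ∈ O, e = T f)
    (htouch : ∃ e ∈ O, a u0 ∈ T e ∨ b u0 ∈ T e) : False := by
  classical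
  have R := E.roots
  set μ := s(a u0, b u0) with hμdef
  have hbb : b (b u0) = b u0 ∧ a (b u0) = a u0 := by
    have := R.const _ _ hu
    rw [(R.aa u0).1, (R.aa u0).2] at this
    exact ⟨this.2.symm, this.1.symm⟩
  have hDb : ∀ e ∈ O, ∀ x ∈ e, b x = b u0 := by
    intro e he x hx
    exact (R.const' (R.reach_iff (hD e he x hx))).2
  set S : Finset V := univ.filter (fun v => ∃ e ∈ O, v ∈ e) with hS
  have hb0 : b u0 ∈ S := by
    rw [hS, mem_filter]
    exact ⟨mem_univ _, μ, hμ, Sym2.mem_mk_right _ _⟩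
  have h1 : S.erase (b u0) ⊆ S.image (fun v => (ψ v).1) := by
    intro v hv
    rw [mem_erase, hS, mem_filter] at hv
    obtain ⟨hvb, -, e, he, hve⟩ := hv
    have hbv : v ≠ b v := by rw [hDb e he v hve]; exact hvb
    by_cases h : e = μ
    · have hva : v = a u0 := by
        rw [h, hμdef, Sym2.mem_iff] at hve
        tauto
      obtain ⟨f, hf, htf⟩ := htouch
      have h2 : ∃ w ∈ T f, (jj a b (κ f) w).1 = v := by
        rcases htf with h3 | h3
        · refine ⟨_, h3, ?_⟩
          rw [jj_fst_of_eq (Or.inl (R.aa u0).1.symm), (R.aa u0).1, hva]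
        · refine ⟨_, h3, ?_⟩
          rw [jj_fst_of_eq (Or.inr hbb.1.symm), hbb.2, hva]
      obtain ⟨w, hw, hwv⟩ := h2
      obtain ⟨u, hu', hψ⟩ := E.vert' (hO f hf) hw
      rw [mem_image]
      refine ⟨u, ?_, ?_⟩
      · rw [hS, mem_filter]
        exact ⟨mem_univ _, f, hf, hu'⟩
      · rw [hψ, hwv]
    · obtain ⟨f, hf, hef⟩ := hsur e he h
      rw [hef] at hve
      obtain ⟨u, hu', hψ⟩ := E.vert' (hO f hf) hve
      rw [mem_image]
      refine ⟨u, ?_, ?_⟩
      · rw [hS, mem_filter]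
        exact ⟨mem_univ _, f, hf, hu'⟩
      · rw [hψ, jj_fst_of_ne hbv]
  -- two edges of the same type
  obtain ⟨f, hf, g, hg, hfg, hTfg⟩ := exists_ne_map_eq_of_card_lt_of_maps_to
    (s := O) (t := O.erase μ) (by rw [card_erase_of_mem hμ]; have := card_pos.2 ⟨μ, hμ⟩; omega)
    (f := T) (fun e he => by
      rw [mem_coe] at he
      rw [mem_coe, mem_erase]
      exact ⟨hne e he, hT e he⟩)
  have hκ : κ f ≠ κ g := fun h => hfg (E.eq_of (hO f hf) (hO g hg) hTfg h)
  have hh : T f ∈ G.edgeSet := E.mem f (hO f hf)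
  obtain ⟨x, y, hxy⟩ : ∃ x y, T f = s(x, y) := by
    induction hTf : T f using Sym2.ind with | _ x y => exact ⟨x, y, rfl⟩
  have hadj : G.Adj x y := by rw [hxy] at hh; exact hh
  have hxT : x ∈ T f := by rw [hxy]; exact Sym2.mem_mk_left _ _
  have hyT : y ∈ T f := by rw [hxy]; exact Sym2.mem_mk_right _ _
  have hax : a x = a u0 := hD _ (hT f hf) x hxT
  have hay : a y = a u0 := hD _ (hT f hf) y hyT
  have hbx : b x = b u0 := hDb _ (hT f hf) x hxT
  have hby : b y = b u0 := hDb _ (hT f hf) y hyT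
  obtain ⟨s1, hs1, hψs1⟩ := E.vert' (hO f hf) hxT
  obtain ⟨t1, ht1, hψt1⟩ := E.vert' (hO f hf) hyT
  obtain ⟨s2, hs2, hψs2⟩ := E.vert' (hO g hg) (hTfg ▸ hxT)
  obtain ⟨t2, ht2, hψt2⟩ := E.vert' (hO g hg) (hTfg ▸ hyT)
  have hSmem : ∀ e ∈ O, ∀ v ∈ e, v ∈ S := by
    intro e he v hv
    rw [hS, mem_filter]
    exact ⟨mem_univ _, e, he, hv⟩
  have key : ∀ z, jj a b (κ f) z ≠ jj a b (κ g) z := by
    intro z hz
    rcases jj_eq R hz with h | h | h
    · exact hκ h.1
    · exact h.2.1.2 (h.2.2 ▸ h.2.1.1)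
    · exact h.2.1.2 (h.2.2 ▸ h.2.1.1)
  have fstind : ∀ z, ∀ i k, (jj a b i z).1 = (jj a b k z).1 := by
    intro z i k
    unfold jj
    split_ifs <;> rfl
  have hss : s1 ≠ s2 := by
    intro h
    apply key x
    rw [← hψs1, ← hψs2, h]
  have htt : t1 ≠ t2 := by
    intro h
    apply key y
    rw [← hψt1, ← hψt2, h]
  have hss' : (ψ s1).1 = (ψ s2).1 := by rw [hψs1, hψs2]; exact fstind _ _ _
  have htt' : (ψ t1).1 = (ψ t2).1 := by rw [hψt1, hψt2]; exact fstind _ _ _
  have hst : (ψ s1).1 ≠ (ψ t1).1 := by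
    rw [hψs1, hψt1]
    intro h
    by_cases h1 : x = b u0
    · rw [jj_fst_of_eq (Or.inr (h1.trans hbx.symm)), hax] at h
      by_cases h2 : y = b u0
      · exact hadj.ne (h1.trans h2.symm)
      · rw [jj_fst_of_ne (by rw [hby]; exact h2)] at h
        apply hne f hf
        rw [hxy, hμdef, h1, ← h, Sym2.eq_swap]
    · rw [jj_fst_of_ne (by rw [hbx]; exact h1)] at h
      by_cases h2 : y = b u0
      · rw [jj_fst_of_eq (Or.inr (h2.trans hby.symm)), hay] at h
        apply hne f hf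
        rw [hxy, hμdef, h2, ← h]
      · rw [jj_fst_of_ne (by rw [hby]; exact h2)] at h
        exact hadj.ne h
  have hs1t2 : s2 ≠ t2 := by
    intro h
    apply hst
    rw [hss', htt', h]
  have h2 : S.image (fun v => (ψ v).1) ⊆ ((S.erase s2).erase t2).image (fun v => (ψ v).1) := by
    intro z hz
    rw [mem_image] at hz
    obtain ⟨v, hv, rfl⟩ := hz
    rw [mem_image]
    by_cases h1 : v = s2
    · refine ⟨s1, ?_, ?_⟩
      · rw [mem_erase, mem_erase]
        refine ⟨?_, hss, hSmem f hf s1 hs1⟩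
        intro h
        apply hst
        rw [htt', h]
      · rw [h1, hss']
    · by_cases h2 : v = t2
      · refine ⟨t1, ?_, ?_⟩
        · rw [mem_erase, mem_erase]
          refine ⟨htt, ?_, hSmem f hf t1 ht1⟩
          intro h
          apply hst
          rw [hss', h]
        · rw [h2, htt']
      · exact ⟨v, by rw [mem_erase, mem_erase]; exact ⟨h2, h1, hv⟩, rfl⟩
  have c1 := card_le_card h1
  have c2 := card_le_card h2
  have c3 : (((S.erase s2).erase t2).image (fun v => (ψ v).1)).card ≤ _ := card_image_le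
  rw [card_erase_of_mem (mem_erase.2 ⟨hs1t2.symm, hSmem g hg t2 ht2⟩),
    card_erase_of_mem (hSmem g hg s2 hs2)] at c3
  rw [card_erase_of_mem hb0] at c1
  have c4 : 2 ≤ S.card := by
    rw [← card_pair hs1t2]
    apply card_le_card
    intro z hz
    rw [mem_insert, mem_singleton] at hz
    rcases hz with rfl | rfl
    · exact hSmem g hg _ hs2
    · exact hSmem g hg _ ht2
  omega

/-- a vertex which is not a root and stays where it is fixes all its edges -/
theorem Emb.fix [Fintype V] (E : Emb G r a b ψ T κ) {i : Fin 3} {w : V} (ha : w ≠ a w)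
    (hb : w ≠ b w) (hw : ψ w = jj a b i w) {x : V} (hx : G.Adj w x) : ψ x = jj a b i x := by
  classical
  have h1 : ∀ e ∈ G.edgeSet, w ∈ e → w ∈ T e ∧ κ e = i := by
    intro e he hwe
    have := E.mem_img he hwe
    rw [hw] at this
    exact L1 E.roots this ha hb
  have h2 := mono_inj_id (univ.filter (fun e => e ∈ G.edgeSet ∧ w ∈ e)) r
    (by
      intro e he f hf h
      rw [mem_filter] at he hf
      exact E.rinj e he.2.1 f hf.2.1 h) T
    (by
      intro e he
      rw [mem_filter] at he ⊢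
      exact ⟨mem_univ _, E.mem e he.2.1, (h1 e he.2.1 he.2.2).1⟩)
    (by
      intro e he f hf h
      rw [mem_filter] at he hf
      apply E.eq_of he.2.1 hf.2.1 h
      rw [(h1 e he.2.1 he.2.2).2, (h1 f hf.2.1 hf.2.2).2])
    (by
      intro e he f hf h
      rw [mem_filter] at he hf
      exact E.mono e he.2.1 f hf.2.1 h)
  have he : s(w, x) ∈ G.edgeSet := hx
  have h3 := h2 s(w, x) (by rw [mem_filter]; exact ⟨mem_univ _, he, Sym2.mem_mk_left _ _⟩)
  have h4 := E.img _ he
  rw [h3, (h1 _ he (Sym2.mem_mk_left _ _)).2] at h4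
  unfold EO.img at h4
  rw [Sym2.map_mk, Sym2.map_mk, hw, Sym2.congr_right] at h4
  exact h4

theorem Emb.spread [Fintype V] (E : Emb G r a b ψ T κ) {i : Fin 3} {w : V}
    (hw : ψ w = jj a b i w) : ψ (a w) = jj a b i (a w) ∨ ψ (b w) = jj a b i (b w) := by
  by_contra hcon
  push Not at hcon
  have key : ∀ c d, ψ c ≠ jj a b i c → ψ d ≠ jj a b i d → ∀ w z, G.Walk w z → a w = c → b w = d →
      ψ w = jj a b i w → ψ z = jj a b i z := by
    intro c d hc hd w z p
    induction p with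
    | nil => exact fun _ _ h => h
    | cons h p ih =>
      rename_i x y z
      intro h1 h2 h3
      have h4 := E.roots.const _ _ h
      apply ih (h4.1 ▸ h1) (h4.2 ▸ h2)
      apply E.fix _ _ h3 h
      · intro h5
        rw [h5, h1] at h3
        exact hc h3
      · intro h5
        rw [h5, h2] at h3
        exact hd h3
  obtain ⟨p⟩ := E.roots.reach w
  exact hcon.1 (key _ _ hcon.1 hcon.2 _ _ p rfl rfl hw)

theorem Emb.flip_aux [Fintype V] (E : Emb G r a b ψ T κ) {i : Fin 3} {p q : V}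
    (h1 : ψ p = jj a b i q) (h2 : ψ q = jj a b i p)
    (hp : p ≠ a p) (hp' : p ≠ b p) (hq : q ≠ a q) (hq' : q ≠ b q) :
    ∀ e ∈ G.edgeSet, p ∈ e → q ∈ e := by
  classical
  have k1 : ∀ e ∈ G.edgeSet, p ∈ e → q ∈ T e ∧ κ e = i := by
    intro e he hwe
    have := E.mem_img he hwe
    rw [h1] at this
    exact L1 E.roots this hq hq'
  have k2 : ∀ e ∈ G.edgeSet, q ∈ e → p ∈ T e ∧ κ e = i := by
    intro e he hwe
    have := E.mem_img he hwe
    rw [h2] at this
    exact L1 E.roots this hp hp'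
  have h3 := mono_inj_id (univ.filter (fun e => e ∈ G.edgeSet ∧ p ∈ e)) r
    (by
      intro e he f hf h
      rw [mem_filter] at he hf
      exact E.rinj e he.2.1 f hf.2.1 h) (fun e => T (T e))
    (by
      intro e he
      rw [mem_filter] at he ⊢
      exact ⟨mem_univ _, E.mem _ (E.mem e he.2.1),
        (k2 _ (E.mem e he.2.1) (k1 e he.2.1 he.2.2).1).1⟩)
    (by
      intro e he f hf h
      rw [mem_filter] at he hf
      have h5 := k1 e he.2.1 he.2.2
      have h6 := k1 f hf.2.1 hf.2.2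
      have h7 := E.eq_of (E.mem e he.2.1) (E.mem f hf.2.1) h (by
        rw [(k2 _ (E.mem e he.2.1) h5.1).2, (k2 _ (E.mem f hf.2.1) h6.1).2])
      apply E.eq_of he.2.1 hf.2.1 h7
      rw [h5.2, h6.2])
    (by
      intro e he f hf h
      rw [mem_filter] at he hf
      have h5 := E.mono e he.2.1 f hf.2.1 h
      rcases Nat.lt_or_eq_of_le h5 with h6 | h6
      · exact E.mono _ (E.mem e he.2.1) _ (E.mem f hf.2.1) h6
      · show r (T (T e)) ≤ r (T (T f))
        rw [E.rinj _ (E.mem e he.2.1) _ (E.mem f hf.2.1) h6])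
  intro e he hpe
  have h4 : T (T e) = e := h3 e (by rw [mem_filter]; exact ⟨mem_univ _, he, hpe⟩)
  have h5 : T e = e := by
    apply E.rinj _ (E.mem e he) _ he
    rcases lt_trichotomy (r (T e)) (r e) with h | h | h
    · have := E.mono _ (E.mem e he) _ he h
      rw [h4] at this
      omega
    · exact h
    · have := E.mono _ he _ (E.mem e he) h
      rw [h4] at this
      omega
  have h6 := (k1 e he hpe).1
  rwa [h5] at h6

theorem Emb.flip [Fintype V] (E : Emb G r a b ψ T κ) {i : Fin 3} {p q : V} (hpq : G.Adj p q)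
    (h1 : ψ p = jj a b i q) (h2 : ψ q = jj a b i p)
    (hp : p ≠ a p) (hp' : p ≠ b p) (hq : q ≠ a q) (hq' : q ≠ b q) : False := by
  have h3 := E.flip_aux h1 h2 hp hp' hq hq'
  have h4 := E.flip_aux h2 h1 hq hq' hp hp'
  have key : ∀ w z, G.Walk w z → (w = p ∨ w = q) → (z = p ∨ z = q) := by
    intro w z P
    induction P with
    | nil => exact id
    | cons h P ih =>
      rename_i x y z
      intro h5
      apply ih
      have hxy : s(x, y) ∈ G.edgeSet := h
      rcases h5 with rfl | rfl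
      · have := h3 _ hxy (Sym2.mem_mk_left _ _)
        rw [Sym2.mem_iff] at this
        rcases this with h6 | h6
        · exact absurd h6.symm hpq.ne
        · exact Or.inr h6.symm
      · have := h4 _ hxy (Sym2.mem_mk_left _ _)
        rw [Sym2.mem_iff] at this
        rcases this with h6 | h6
        · exact absurd h6 hpq.ne
        · exact Or.inl h6.symm
  obtain ⟨P⟩ := E.roots.reach p
  rcases key _ _ P (Or.inl rfl) with h | h
  · exact hp h.symm
  · apply hq
    rw [← h, (E.roots.aa p).1]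

theorem Emb.touch [Fintype V] (E : Emb G r a b ψ T κ) {p q : V} (hpq : G.Adj p q)
    (hT : T s(p, q) = s(p, q)) (hne : s(p, q) ≠ s(a p, b p)) :
    ∃ k : ℕ, a p ∈ T (T^[k] s(a p, b p)) ∨ b p ∈ T (T^[k] s(a p, b p)) := by
  have R := E.roots
  have hu : G.Adj (a p) (b p) := R.adj p q hpq
  have hμ : s(a p, b p) ∈ G.edgeSet := hu
  have hbb : b (b p) = b p ∧ a (b p) = a p := by
    have := R.const _ _ hu
    rw [(R.aa p).1, (R.aa p).2] at this
    exact ⟨this.2.symm, this.1.symm⟩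
  have haa := R.aa p
  have hc := R.const p q hpq
  have hpq' : s(p, q) ∈ G.edgeSet := hpq
  have h1 := E.img _ hpq'
  rw [hT] at h1
  unfold EO.img at h1
  rw [Sym2.map_mk, Sym2.map_mk, Sym2.eq_iff] at h1
  rcases h1 with ⟨h1, -⟩ | ⟨h1, h2⟩
  · refine ⟨0, ?_⟩
    rw [Function.iterate_zero_apply]
    rcases E.spread h1 with h3 | h3
    · have h4 := E.mem_img hμ (Sym2.mem_mk_left _ _)
      rw [h3] at h4
      have := L2 R h4 (Or.inl haa.1.symm)
      rwa [haa.1, haa.2] at this
    · have h4 := E.mem_img hμ (Sym2.mem_mk_right _ _)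
      rw [h3] at h4
      have := L2 R h4 (Or.inr hbb.1.symm)
      rwa [hbb.1, hbb.2] at this
  · by_cases hp : p = a p ∨ p = b p
    · by_cases hq : q = a q ∨ q = b q
      · exfalso
        apply hne
        rw [← hc.1, ← hc.2] at hq
        rcases hp with hp | hp <;> rcases hq with hq | hq
        · exact absurd (hp.trans hq.symm) hpq.ne
        · rw [← hp, ← hq]
        · rw [← hp, ← hq, Sym2.eq_swap]
        · exact absurd (hp.trans hq.symm) hpq.ne
      · push Not at hq
        refine ⟨1, ?_⟩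
        rw [Function.iterate_one]
        have h3 : p ∈ s(a p, b p) := by rw [Sym2.mem_iff]; exact hp
        have h4 := E.mem_img hμ h3
        rw [h1] at h4
        have h5 := E.mem_img (E.mem _ hμ) (L1 R h4 hq.1 hq.2).1
        rw [h2] at h5
        exact L2 R h5 hp
    · push Not at hp
      by_cases hq : q = a q ∨ q = b q
      · refine ⟨1, ?_⟩
        rw [Function.iterate_one]
        have h3 : q ∈ s(a p, b p) := by rw [Sym2.mem_iff, hc.1, hc.2]; exact hq
        have h4 := E.mem_img hμ h3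
        rw [h2] at h4
        have h5 := E.mem_img (E.mem _ hμ) (L1 R h4 hp.1 hp.2).1
        rw [h1] at h5
        have := L2 R h5 hq
        rwa [← hc.1, ← hc.2] at this
      · push Not at hq
        exact (E.flip hpq h1 h2 hp.1 hp.2 hq.1 hq.2).elim

theorem Emb.false [Fintype V] (E : Emb G r a b ψ T κ) {f0 : Sym2 V} {k0 : Fin 3}
    (hf0 : f0 ∈ G.edgeSet) (hmin : ∀ e ∈ G.edgeSet, r f0 ≤ r (T e))
    (hdisj : ∀ e ∈ G.edgeSet, ∀ x ∈ e, ψ x ∉ EO.img a b f0 k0) : False := by
  classical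
  have R := E.roots
  set A : Finset (Sym2 V) := univ.filter (fun e => e ∈ G.edgeSet) with hA
  have memA : ∀ e, e ∈ A ↔ e ∈ G.edgeSet := by intro e; rw [hA, mem_filter]; simp
  obtain ⟨m, hm, hmmax⟩ := exists_max_image A r ⟨f0, (memA _).2 hf0⟩
  obtain ⟨s, hs, hsmin⟩ := exists_min_image (A.filter (fun e => r (T e) ≤ r e)) r
    ⟨m, by
      rw [mem_filter]
      exact ⟨hm, hmmax _ ((memA _).2 (E.mem _ ((memA _).1 hm)))⟩⟩
  rw [mem_filter, memA] at hs
  obtain ⟨hs, hsT⟩ := hs
  have hsmin' : ∀ e ∈ G.edgeSet, r e < r s → r e < r (T e) := by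
    intro e he h
    by_contra hcon
    have := hsmin e (by rw [mem_filter, memA]; exact ⟨he, by omega⟩)
    omega
  have hTs : T s = s ∧ (f0 = s ∨ ∃ e ∈ G.edgeSet, r e < r s ∧ T e = s) := by
    by_cases hex : ∃ e ∈ G.edgeSet, r e < r s
    · obtain ⟨e, he, hemax⟩ := exists_max_image (A.filter (fun e => r e < r s)) r (by
        obtain ⟨e, he, h⟩ := hex
        exact ⟨e, by rw [mem_filter, memA]; exact ⟨he, h⟩⟩)
      rw [mem_filter, memA] at he
      obtain ⟨he, hes⟩ := he
      have h1 := hsmin' e he hes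
      have h2 := E.mono e he s hs hes
      have h3 : ¬ r (T e) < r s := by
        intro h3
        have := hemax (T e) (by rw [mem_filter, memA]; exact ⟨E.mem e he, h3⟩)
        omega
      exact ⟨E.rinj _ (E.mem s hs) _ hs (by omega), Or.inr ⟨e, he, hes,
        E.rinj _ (E.mem e he) _ hs (by omega)⟩⟩
    · push Not at hex
      have h1 := hex _ (E.mem s hs)
      have h2 := hex _ hf0
      have h3 := hmin s hs
      exact ⟨E.rinj _ (E.mem s hs) _ hs (by omega), Or.inl (E.rinj _ hf0 _ hs (by omega))⟩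
  obtain ⟨hTs, hcase⟩ := hTs
  obtain ⟨p, q, hspq⟩ : ∃ p q, s = s(p, q) := by
    induction hs' : s using Sym2.ind with | _ x y => exact ⟨x, y, rfl⟩
  have hpq : G.Adj p q := by rw [hspq] at hs; exact hs
  have hu : G.Adj (a p) (b p) := R.adj p q hpq
  have hμ : s(a p, b p) ∈ G.edgeSet := hu
  by_cases hsμ : s = s(a p, b p)
  · rcases hcase with h | ⟨e, he, hes, hTe⟩
    · obtain ⟨x, hx1, hx2⟩ := share R hu (κ s) k0
      rw [← hsμ] at hx1 hx2
      have h1 := E.img s hs
      rw [hTs] at h1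
      rw [← h1, Sym2.mem_map] at hx1
      obtain ⟨v, hv, rfl⟩ := hx1
      rw [← h] at hx2
      exact hdisj s hs v hv hx2
    · obtain ⟨x, hx1, hx2⟩ := share R hu (κ s) (κ e)
      rw [← hsμ] at hx1 hx2
      have h1 := E.img s hs
      rw [hTs] at h1
      have h2 := E.img e he
      rw [hTe] at h2
      rw [← h1, Sym2.mem_map] at hx1
      rw [← h2, Sym2.mem_map] at hx2
      obtain ⟨v, hv, rfl⟩ := hx1
      obtain ⟨w, hw, hwv⟩ := hx2
      rw [E.inj e he s hs w hw v hv hwv] at hw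
      obtain ⟨w', hw'⟩ : ∃ w', e = s(v, w') := by
        obtain ⟨w', hw'⟩ := hw
        exact ⟨w', hw'⟩
      have h3 : G.Adj v w' := by rw [hw'] at he; exact he
      have h4 := R.min v w' h3
      have h5 := edge_const R hs hv (show p ∈ s by rw [hspq]; exact Sym2.mem_mk_left _ _)
      rw [h5.1, h5.2, ← hsμ, ← hw'] at h4
      omega
  · set μ := s(a p, b p) with hμdef
    have h1 : r μ < r s := by
      have h2 := R.min p q hpq
      rw [← hspq, ← hμdef] at h2
      rcases Nat.lt_or_eq_of_le h2 with h3 | h3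
      · exact h3
      · exact absurd (E.rinj _ hμ _ hs h3).symm hsμ
    have h2 := hsmin' μ hμ h1
    have hTpq : T s(p, q) = s(p, q) := by rw [← hspq]; exact hTs
    obtain ⟨k, hk⟩ := E.touch hpq hTpq (by rw [← hspq]; exact hsμ)
    -- the images of the edges of the component
    have hp0 : a (ψ p).1 = a p := by
      obtain ⟨w, hw, hw'⟩ := E.vert hpq (Sym2.mem_mk_left p q)
      rw [← hw', jj_fst R]
      rw [hTpq] at hw
      exact (edge_const R hpq hw (Sym2.mem_mk_left p q)).1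
    have hDT : ∀ e ∈ G.edgeSet, (∀ x ∈ e, a x = a p) → ∀ x ∈ T e, a x = a p := by
      intro e he hD x hx
      obtain ⟨u, hu, hψu⟩ := E.vert' he hx
      have h3 := E.comp (R.reach_iff (hD u hu))
      rw [hp0, hψu, jj_fst R] at h3
      exact h3
    have hiter : ∀ k : ℕ, T^[k] μ ∈ G.edgeSet ∧ ∀ x ∈ T^[k] μ, a x = a p := by
      intro k
      induction k with
      | zero =>
        refine ⟨hμ, fun x hx => ?_⟩
        rw [Function.iterate_zero_apply] at hx
        rw [(edge_const R hμ hx (Sym2.mem_mk_left _ _)).1, (R.aa p).1]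
      | succ k ih =>
        rw [Function.iterate_succ_apply']
        exact ⟨E.mem _ ih.1, hDT _ ih.1 ih.2⟩
    have hTμ : ∀ k : ℕ, T (T^[k] μ) ≠ μ := by
      intro k h3
      obtain ⟨h4, h5⟩ := hiter k
      have h6 : r μ ≤ r (T^[k] μ) := by
        obtain ⟨x, y, hxy⟩ : ∃ x y, T^[k] μ = s(x, y) := by
          induction hs' : T^[k] μ using Sym2.ind with | _ x y => exact ⟨x, y, rfl⟩
        rw [hxy] at h4 h5 ⊢
        have h7 := R.min x y h4
        have h8 := h5 x (Sym2.mem_mk_left _ _)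
        rw [h8, (R.const' (R.reach_iff h8)).2] at h7
        exact h7
      have h7 : r (T μ) ≤ r (T (T^[k] μ)) := by
        rcases Nat.lt_or_eq_of_le h6 with h8 | h8
        · exact E.mono _ hμ _ h4 h8
        · rw [← E.rinj _ hμ _ h4 h8]
      rw [h3] at h7
      omega
    refine E.orbit (univ.filter (fun e => ∃ k : ℕ, e = T^[k] μ)) p ?_ hu ?_ ?_ ?_ ?_ ?_ ?_
    · intro e he
      rw [mem_filter] at he
      obtain ⟨-, k, rfl⟩ := he
      exact (hiter k).1
    · intro e he
      rw [mem_filter] at he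
      obtain ⟨-, k, rfl⟩ := he
      exact (hiter k).2
    · intro e he
      rw [mem_filter] at he ⊢
      obtain ⟨-, k, rfl⟩ := he
      exact ⟨mem_univ _, k + 1, (Function.iterate_succ_apply' T k μ).symm⟩
    · rw [mem_filter]
      exact ⟨mem_univ _, 0, rfl⟩
    · intro e he
      rw [mem_filter] at he
      obtain ⟨-, k, rfl⟩ := he
      exact hTμ k
    · intro e he hne
      rw [mem_filter] at he
      obtain ⟨-, k, rfl⟩ := he
      cases k with
      | zero => exact absurd rfl hne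
      | succ k =>
        exact ⟨T^[k] μ, by rw [mem_filter]; exact ⟨mem_univ _, k, rfl⟩,
          Function.iterate_succ_apply' T k μ⟩
    · exact ⟨T^[k] μ, by rw [mem_filter]; exact ⟨mem_univ _, k, rfl⟩, hk⟩

end

end Pool.Agent.Q110.EO
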