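import Pool.Agent.Q110.EO.Embed
import Pool.Agent.Q110.EO.Defs

/-!
# Saturated hosts with boundedly many edges
-/

set_option autoImplicit false

open Finset

namespace Pool.Agent.Q110.EO

theorem addMin_lab_ne {V : Type} (H : EOG V) (u v : V) (x : ℝ)
    (hx : ∀ e ∈ H.graph.edgeSet, x < H.lab e) {e : Sym2 V} (h : e ≠ s(u, v)) :
    (H.addMin u v x hx).lab e = H.lab e := if_neg h

theorem addMin_lab_eq {V : Type} (H : EOG V) (u v : V) (x : ℝ)
    (hx : ∀ e ∈ H.graph.edgeSet, x < H.lab e) {e : Sym2 V} (h : e = s(u, v)) :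
    (H.addMin u v x hx).lab e = x := if_pos h

/-- ranks of the edges -/
theorem exists_rank {V : Type} [Fintype V] (G : SimpleGraph V) (lab : Sym2 V → ℝ)
    (hinj : Set.InjOn lab G.edgeSet) : ∃ r : Sym2 V → ℕ,
      (∀ e ∈ G.edgeSet, ∀ f ∈ G.edgeSet, (lab e < lab f ↔ r e < r f)) ∧
      (∀ e ∈ G.edgeSet, ∀ f ∈ G.edgeSet, r e = r f → e = f) := by
  classical
  have h1 : ∀ e ∈ G.edgeSet, ∀ f ∈ G.edgeSet, lab e < lab f →
      (univ.filter (fun g => g ∈ G.edgeSet ∧ lab g < lab e)).card <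
      (univ.filter (fun g => g ∈ G.edgeSet ∧ lab g < lab f)).card := by
    intro e he f hf h
    apply card_lt_card
    rw [ssubset_iff_of_subset]
    · refine ⟨e, ?_, ?_⟩
      · rw [mem_filter]
        exact ⟨mem_univ _, he, h⟩
      · rw [mem_filter]
        rintro ⟨-, -, h'⟩
        exact lt_irrefl _ h'
    · intro g hg
      rw [mem_filter] at hg ⊢
      exact ⟨mem_univ _, hg.2.1, hg.2.2.trans h⟩
  refine ⟨fun e => (univ.filter (fun g => g ∈ G.edgeSet ∧ lab g < lab e)).card, ?_, ?_⟩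
  · intro e he f hf
    beta_reduce
    refine ⟨h1 e he f hf, fun h => ?_⟩
    by_contra hcon
    rcases lt_or_eq_of_le (not_lt.1 hcon) with h2 | h2
    · exact absurd (h1 f hf e he h2) (by omega)
    · rw [hinj hf he h2] at h
      exact lt_irrefl _ h
  · intro e he f hf h
    beta_reduce at h
    rcases lt_trichotomy (lab e) (lab f) with h2 | h2 | h2
    · exact absurd (h1 e he f hf h2) (by omega)
    · exact hinj he hf h2
    · exact absurd (h1 f hf e he h2) (by omega)

section
variable {V : Type} [Fintype V] {n : ℕ}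

/-- the edges of a host which contains the three glued copies of `G` -/
structure Good (F : EOG V) (G : SimpleGraph V) (a b : V → V) (ι : V × Fin 3 → Fin n)
    (H : EOG (Fin n)) : Prop where
  free : ¬ Contains F H
  adj : ∀ u w i, G.Adj u w → H.graph.Adj (ι (jj a b i u)) (ι (jj a b i w))
  ord : ∀ i, ∀ e ∈ G.edgeSet, ∀ f ∈ G.edgeSet, F.lab e < F.lab f →
    H.lab ((img a b e i).map ι) < H.lab ((img a b f i).map ι)
  supp : ∀ x y, H.graph.Adj x y → x ∈ Set.range ι ∧ y ∈ Set.range ι

/-- the glued host -/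
theorem exists_good (F : EOG V) (a0 b0 : V) (hab : F.graph.Adj a0 b0)
    (hiso : ∀ w, (F.graph.Adj a0 w → w = b0) ∧ (F.graph.Adj b0 w → w = a0))
    (hmin : ∀ e ∈ F.graph.edgeSet, e ≠ s(a0, b0) → F.lab s(a0, b0) < F.lab e)
    (G : SimpleGraph V) (hG : ∀ u w, G.Adj u w ↔ F.graph.Adj u w ∧ s(u, w) ≠ s(a0, b0))
    (r : Sym2 V → ℕ) (hr : ∀ e ∈ G.edgeSet, ∀ f ∈ G.edgeSet, (F.lab e < F.lab f ↔ r e < r f))
    (rinj : ∀ e ∈ G.edgeSet, ∀ f ∈ G.edgeSet, r e = r f → e = f)
    (a b : V → V) (R : Roots G r a b) (ι : V × Fin 3 → Fin n) (hι : Function.Injective ι) :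
    ∃ H : EOG (Fin n), Good F G a b ι H := by
  classical
  have hGF : ∀ e, e ∈ G.edgeSet ↔ e ∈ F.graph.edgeSet ∧ e ≠ s(a0, b0) := by
    intro e
    induction e using Sym2.ind with | _ u w => ?_
    exact hG u w
  have hGa : ∀ e ∈ G.edgeSet, a0 ∉ e := by
    intro e he h
    induction e using Sym2.ind with | _ u w => ?_
    rw [hGF] at he
    rw [Sym2.mem_iff] at h
    rcases h with rfl | rfl
    · exact he.2 (by rw [(hiso w).1 he.1])
    · exact he.2 (by rw [(hiso u).1 he.1.symm, Sym2.eq_swap])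
  have hGb : ∀ e ∈ G.edgeSet, b0 ∉ e := by
    intro e he h
    induction e using Sym2.ind with | _ u w => ?_
    rw [hGF] at he
    rw [Sym2.mem_iff] at h
    rcases h with rfl | rfl
    · exact he.2 (by rw [(hiso w).2 he.1, Sym2.eq_swap])
    · exact he.2 (by rw [(hiso u).2 he.1.symm])
  -- the graph
  let H0g : SimpleGraph (Fin n) :=
    { Adj := fun x y => ∃ u w i, G.Adj u w ∧ x = ι (jj a b i u) ∧ y = ι (jj a b i w)
      symm := ⟨fun x y h => by
        obtain ⟨u, w, i, h1, h2, h3⟩ := h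
        exact ⟨w, u, i, h1.symm, h3, h2⟩⟩
      loopless := ⟨fun x h => by
        obtain ⟨u, w, i, h1, h2, h3⟩ := h
        exact h1.ne (jj_inj R (hι (h2.symm.trans h3)))⟩ }
  have hedge : ∀ e ∈ H0g.edgeSet, ∃ p : Sym2 V × Fin 3, p.1 ∈ G.edgeSet ∧
      e = (img a b p.1 p.2).map ι := by
    intro e he
    induction e using Sym2.ind with | _ x y => ?_
    obtain ⟨u, w, i, h1, h2, h3⟩ := he
    refine ⟨(s(u, w), i), h1, ?_⟩
    show s(x, y) = (img a b s(u, w) i).map ι
    unfold img
    rw [Sym2.map_mk, Sym2.map_mk]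
    have h2' : x = ι (jj a b i u) := h2
    have h3' : y = ι (jj a b i w) := h3
    rw [h2', h3']
  let lab0 : Sym2 (Fin n) → ℕ := fun e =>
    if h : ∃ p : Sym2 V × Fin 3, p.1 ∈ G.edgeSet ∧ e = (img a b p.1 p.2).map ι then
      3 * r h.choose.1 + (h.choose.2 : ℕ) else 0
  have hlab : ∀ e ∈ G.edgeSet, ∀ i : Fin 3, lab0 ((img a b e i).map ι) = 3 * r e + (i : ℕ) := by
    intro e he i
    have h : ∃ p : Sym2 V × Fin 3, p.1 ∈ G.edgeSet ∧
      (img a b e i).map ι = (img a b p.1 p.2).map ι := ⟨(e, i), he, rfl⟩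
    have h1 := h.choose_spec
    have h2 := img_inj R he h1.1 (Sym2.map.injective hι h1.2)
    show (if h : ∃ p : Sym2 V × Fin 3, p.1 ∈ G.edgeSet ∧
      (img a b e i).map ι = (img a b p.1 p.2).map ι then
      3 * r h.choose.1 + (h.choose.2 : ℕ) else 0) = _
    rw [dif_pos h, ← h2.1, ← h2.2]
  refine ⟨⟨H0g, fun e => (lab0 e : ℝ), ?_⟩, ?_, ?_, ?_, ?_⟩
  · intro e he f hf h
    obtain ⟨⟨e', i⟩, h1, rfl⟩ := hedge e he
    obtain ⟨⟨f', k⟩, h2, rfl⟩ := hedge f hf
    simp only at h1 h2 h
    rw [Nat.cast_inj, hlab e' h1 i, hlab f' h2 k] at h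
    have h3 := i.2
    have h4 := k.2
    have h5 : r e' = r f' := by omega
    have h6 : i = k := by
      apply Fin.ext
      omega
    rw [rinj e' h1 f' h2 h5, h6]
  · -- free
    rintro ⟨φ, hφ, hφ1, hφ2⟩
    simp only at hφ1 hφ2
    have hmem : ∀ e ∈ F.graph.edgeSet, e.map φ ∈ H0g.edgeSet := by
      intro e he
      induction e using Sym2.ind with | _ u w => ?_
      exact hφ1 u w he
    have hex : ∀ e : Sym2 V, ∃ p : Sym2 V × Fin 3, e ∈ F.graph.edgeSet → p.1 ∈ G.edgeSet ∧
        e.map φ = (img a b p.1 p.2).map ι := by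
      intro e
      by_cases he : e ∈ F.graph.edgeSet
      · obtain ⟨p, hp⟩ := hedge _ (hmem e he)
        exact ⟨p, fun _ => hp⟩
      · exact ⟨(e, 0), fun h => absurd h he⟩
    choose P hP using hex
    have : Nonempty (V × Fin 3) := ⟨(a0, 0)⟩
    let ψ : V → V × Fin 3 := fun v => Function.invFun ι (φ v)
    have hψι : ∀ x, Function.invFun ι (ι x) = x := Function.leftInverse_invFun hι
    have hmapψ : ∀ e ∈ F.graph.edgeSet, e.map ψ = img a b (P e).1 (P e).2 := by
      intro e he
      have h1 := (hP e he).2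
      have h2 : e.map ψ = (e.map φ).map (Function.invFun ι) := by
        rw [Sym2.map_map]
        rfl
      rw [h2, h1, Sym2.map_map]
      have h3 : Function.invFun ι ∘ ι = id := by
        funext x
        exact hψι x
      rw [h3, Sym2.map_id, id]
    have hιψ : ∀ e ∈ F.graph.edgeSet, ∀ v ∈ e, ι (ψ v) = φ v := by
      intro e he v hv
      have h1 : φ v ∈ e.map φ := Sym2.mem_map.2 ⟨v, hv, rfl⟩
      rw [(hP e he).2, Sym2.mem_map] at h1
      obtain ⟨x, -, hx⟩ := h1
      show ι (Function.invFun ι (φ v)) = φ v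
      rw [← hx, hψι]
    have hψinj : ∀ e ∈ F.graph.edgeSet, ∀ f ∈ F.graph.edgeSet, ∀ x ∈ e, ∀ y ∈ f,
        ψ x = ψ y → x = y := by
      intro e he f hf x hx y hy h
      apply hφ
      rw [← hιψ e he x hx, ← hιψ f hf y hy, h]
    have hμ : s(a0, b0) ∈ F.graph.edgeSet := hab
    have hordP : ∀ e ∈ F.graph.edgeSet, ∀ f ∈ F.graph.edgeSet, F.lab e < F.lab f →
        r (P e).1 ≤ r (P f).1 := by
      intro e he f hf h
      have h1 := hφ2 e he f hf h
      rw [(hP e he).2, (hP f hf).2, Nat.cast_lt, hlab _ (hP e he).1, hlab _ (hP f hf).1] at h1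
      have h3 := (P e).2.2
      have h4 := (P f).2.2
      omega
    refine Emb.false (r := r) (G := G) (a := a) (b := b) (ψ := ψ) (T := fun e => (P e).1)
      (κ := fun e => (P e).2) ⟨R, rinj, ?_, ?_, ?_, ?_⟩ (f0 := (P s(a0, b0)).1)
      (k0 := (P s(a0, b0)).2) (hP _ hμ).1 ?_ ?_
    · intro e he f hf
      exact hψinj e ((hGF e).1 he).1 f ((hGF f).1 hf).1
    · intro e he
      exact (hP e ((hGF e).1 he).1).1
    · intro e he
      exact hmapψ e ((hGF e).1 he).1
    · intro e he f hf h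
      exact hordP e ((hGF e).1 he).1 f ((hGF f).1 hf).1 ((hr e he f hf).2 h)
    · intro e he
      exact hordP _ hμ e ((hGF e).1 he).1 (hmin e ((hGF e).1 he).1 ((hGF e).1 he).2)
    · intro e he x hx h
      rw [← hmapψ _ hμ, Sym2.map_mk, Sym2.mem_iff] at h
      rcases h with h | h
      · have := hψinj e ((hGF e).1 he).1 _ hμ x hx a0 (Sym2.mem_mk_left _ _) h
        exact hGa e he (this ▸ hx)
      · have := hψinj e ((hGF e).1 he).1 _ hμ x hx b0 (Sym2.mem_mk_right _ _) h
        exact hGb e he (this ▸ hx)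
  · intro u w i h
    exact ⟨u, w, i, h, rfl, rfl⟩
  · intro i e he f hf h
    show ((lab0 ((img a b e i).map ι) : ℕ) : ℝ) < ((lab0 ((img a b f i).map ι) : ℕ) : ℝ)
    rw [Nat.cast_lt, hlab e he i, hlab f hf i]
    have := (hr e he f hf).1 h
    omega
  · intro x y h
    obtain ⟨u, w, i, h1, h2, h3⟩ := h
    exact ⟨⟨_, h2.symm⟩, ⟨_, h3.symm⟩⟩

/-- a new edge which leaves the support of the host -/
theorem Good.outside {F : EOG V} {a0 b0 : V} (hab : F.graph.Adj a0 b0)
    (hiso : ∀ w, (F.graph.Adj a0 w → w = b0) ∧ (F.graph.Adj b0 w → w = a0))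
    (hmin : ∀ e ∈ F.graph.edgeSet, e ≠ s(a0, b0) → F.lab s(a0, b0) < F.lab e)
    {G : SimpleGraph V} (hG : ∀ u w, G.Adj u w ↔ F.graph.Adj u w ∧ s(u, w) ≠ s(a0, b0))
    {r : Sym2 V → ℕ} {a b : V → V} (R : Roots G r a b) {ι : V × Fin 3 → Fin n}
    (hι : Function.Injective ι) {H : EOG (Fin n)} (hH : Good F G a b ι H)
    {u v : Fin n} (huv : ¬ H.graph.Adj u v) (x : ℝ) (hx : ∀ e ∈ H.graph.edgeSet, x < H.lab e)
    (y z : Fin n) (hz : z ∉ Set.range ι) (hyz : y ≠ z) (hs : s(y, z) = s(u, v)) :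
    Contains F (H.addMin u v x hx) := by
  classical
  obtain ⟨i, hi⟩ : ∃ i : Fin 3, ∀ w, ι (jj a b i w) ≠ y := by
    by_cases hy : y ∈ Set.range ι
    · obtain ⟨⟨t, k⟩, rfl⟩ := hy
      refine ⟨k + 1, fun w h => ?_⟩
      have h1 := hι h
      unfold jj at h1
      split_ifs at h1
      · rw [Prod.mk.injEq] at h1
        have h2 := h1.2
        clear * - h2
        revert h2
        decide +revert
      · rw [Prod.mk.injEq] at h1
        exact fin3_ne k h1.2.symm
    · exact ⟨0, fun w h => hy ⟨_, h⟩⟩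
  have hzj : ∀ w, ι (jj a b i w) ≠ z := fun w h => hz ⟨_, h⟩
  have hne : a0 ≠ b0 := hab.ne
  let φ : V → Fin n := fun w => if w = a0 then y else if w = b0 then z else ι (jj a b i w)
  have φa : φ a0 = y := if_pos rfl
  have φb : φ b0 = z := by
    show (if b0 = a0 then y else if b0 = b0 then z else ι (jj a b i b0)) = z
    rw [if_neg hne.symm, if_pos rfl]
  have φo : ∀ w, w ≠ a0 → w ≠ b0 → φ w = ι (jj a b i w) := by
    intro w h1 h2
    show (if w = a0 then y else if w = b0 then z else ι (jj a b i w)) = _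
    rw [if_neg h1, if_neg h2]
  have hGF : ∀ e, e ∈ G.edgeSet ↔ e ∈ F.graph.edgeSet ∧ e ≠ s(a0, b0) := by
    intro e
    induction e using Sym2.ind with | _ u w => ?_
    exact hG u w
  have hGe : ∀ p q, G.Adj p q → p ≠ a0 ∧ p ≠ b0 ∧ q ≠ a0 ∧ q ≠ b0 := by
    intro p q h
    rw [hG] at h
    refine ⟨?_, ?_, ?_, ?_⟩
    · rintro rfl
      exact h.2 (by rw [(hiso q).1 h.1])
    · rintro rfl
      exact h.2 (by rw [(hiso q).2 h.1, Sym2.eq_swap])
    · rintro rfl
      exact h.2 (by rw [(hiso p).1 h.1.symm, Sym2.eq_swap])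
    · rintro rfl
      exact h.2 (by rw [(hiso p).2 h.1.symm])
  have hmapG : ∀ e ∈ G.edgeSet, e.map φ = (img a b e i).map ι ∧ e.map φ ∈ H.graph.edgeSet := by
    intro e he
    induction e using Sym2.ind with | _ p q => ?_
    obtain ⟨h1, h2, h3, h4⟩ := hGe p q he
    unfold img
    rw [Sym2.map_mk, Sym2.map_mk, Sym2.map_mk, φo p h1 h2, φo q h3 h4]
    exact ⟨rfl, hH.adj p q i he⟩
  have hlab : ∀ e ∈ G.edgeSet, (H.addMin u v x hx).lab (e.map φ) = H.lab (e.map φ) := by
    intro e he
    apply addMin_lab_ne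
    intro h
    have := (hmapG e he).2
    rw [h] at this
    exact huv this
  have hmap0 : s(a0, b0).map φ = s(u, v) := by
    rw [Sym2.map_mk, φa, φb, hs]
  have hlab0 : (H.addMin u v x hx).lab (s(a0, b0).map φ) = x :=
    addMin_lab_eq H u v x hx hmap0
  refine ⟨φ, ?_, ?_, ?_⟩
  · intro p q h
    by_cases hp : p = a0
    · by_cases hq : q = a0
      · rw [hp, hq]
      · exfalso
        by_cases hq' : q = b0
        · rw [hp, hq', φa, φb] at h
          exact hyz h
        · rw [hp, φa, φo q hq hq'] at h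
          exact hi q h.symm
    · by_cases hp' : p = b0
      · by_cases hq : q = a0
        · exfalso
          rw [hp', hq, φa, φb] at h
          exact hyz h.symm
        · by_cases hq' : q = b0
          · rw [hp', hq']
          · exfalso
            rw [hp', φb, φo q hq hq'] at h
            exact hzj q h.symm
      · rw [φo p hp hp'] at h
        by_cases hq : q = a0
        · exfalso
          rw [hq, φa] at h
          exact hi p h
        · by_cases hq' : q = b0
          · exfalso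
            rw [hq', φb] at h
            exact hzj p h
          · rw [φo q hq hq'] at h
            exact jj_inj R (hι h)
  · intro p q h
    by_cases hpq : s(p, q) = s(a0, b0)
    · right
      rw [SimpleGraph.edge_adj]
      refine ⟨?_, ?_⟩
      · have h1 : s(φ p, φ q) = s(u, v) := by
          rw [← hmap0, ← hpq, Sym2.map_mk]
        rw [Sym2.eq_iff] at h1
        exact h1
      · have h1 : s(φ p, φ q) = s(y, z) := by
          rw [hs, ← hmap0, ← hpq, Sym2.map_mk]
        rw [Sym2.eq_iff] at h1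
        rcases h1 with h1 | h1
        · rw [h1.1, h1.2]
          exact hyz
        · rw [h1.1, h1.2]
          exact hyz.symm
    · left
      have h1 : G.Adj p q := (hG p q).2 ⟨h, hpq⟩
      exact (hmapG s(p, q) h1).2
  · intro e he f hf h
    have hf' : f ≠ s(a0, b0) := by
      rintro rfl
      by_cases he' : e = s(a0, b0)
      · rw [he'] at h
        exact lt_irrefl _ h
      · exact lt_irrefl _ (h.trans (hmin e he he'))
    have hfG : f ∈ G.edgeSet := (hGF f).2 ⟨hf, hf'⟩
    rw [hlab f hfG]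
    by_cases he' : e = s(a0, b0)
    · rw [he', hlab0]
      exact hx _ (hmapG f hfG).2
    · have heG : e ∈ G.edgeSet := (hGF e).2 ⟨he, he'⟩
      rw [hlab e heG, (hmapG e heG).1, (hmapG f hfG).1]
      exact hH.ord i e heG f hfG h

/-- **Main theorem.** If the minimal edge of `F` is isolated, then there are `F`-saturated hosts
with a bounded number of edges. -/
theorem exists_saturated (F : EOG V) (a0 b0 : V) (hab : F.graph.Adj a0 b0)
    (hiso : ∀ w, (F.graph.Adj a0 w → w = b0) ∧ (F.graph.Adj b0 w → w = a0))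
    (hmin : ∀ e ∈ F.graph.edgeSet, e ≠ s(a0, b0) → F.lab s(a0, b0) < F.lab e)
    (hn : 3 * Fintype.card V ≤ n) :
    ∃ H : EOG (Fin n), Saturated F H ∧
      H.graph.edgeSet.ncard ≤ Fintype.card (Sym2 (V × Fin 3)) := by
  classical
  obtain ⟨G, hG⟩ : ∃ G : SimpleGraph V, ∀ u w, G.Adj u w ↔
      F.graph.Adj u w ∧ s(u, w) ≠ s(a0, b0) :=
    ⟨F.graph.deleteEdges {s(a0, b0)}, fun u w => by
      rw [SimpleGraph.deleteEdges_adj, Set.mem_singleton_iff]⟩
  have hGF : ∀ e, e ∈ G.edgeSet ↔ e ∈ F.graph.edgeSet ∧ e ≠ s(a0, b0) := by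
    intro e
    induction e using Sym2.ind with | _ u w => ?_
    exact hG u w
  obtain ⟨r, hr, rinj⟩ := exists_rank G F.lab (fun e he f hf h =>
    F.inj ((hGF e).1 he).1 ((hGF f).1 hf).1 h)
  obtain ⟨a, b, R⟩ := exists_roots G r
  obtain ⟨ι⟩ : Nonempty (V × Fin 3 ↪ Fin n) := by
    apply Function.Embedding.nonempty_of_card_le
    rw [Fintype.card_prod, Fintype.card_fin, Fintype.card_fin]
    omega
  obtain ⟨H0, hH0⟩ := exists_good F a0 b0 hab hiso hmin G hG r hr rinj a b R ι ι.injective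
  set S : Set ℕ := {k | ∃ H : EOG (Fin n), Good F G a b ι H ∧ H.graph.edgeSet.ncard = k} with hS
  have hSb : BddAbove S := by
    refine ⟨Fintype.card (Sym2 (Fin n)), ?_⟩
    rintro k ⟨H, -, rfl⟩
    calc H.graph.edgeSet.ncard ≤ (Set.univ : Set (Sym2 (Fin n))).ncard :=
          Set.ncard_le_ncard (Set.subset_univ _) (Set.toFinite _)
      _ = _ := by rw [Set.ncard_univ, Nat.card_eq_fintype_card]
  have hSne : S.Nonempty := ⟨_, H0, hH0, rfl⟩
  obtain ⟨H, hH, hHk⟩ := Nat.sSup_mem hSne hSb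
  refine ⟨H, ⟨hH.free, ?_⟩, ?_⟩
  · intro u v huv hadj x hx
    by_cases hv : v ∈ Set.range ι
    · by_cases hu : u ∈ Set.range ι
      · by_contra hcon
        have hlab : ∀ i, ∀ e ∈ G.edgeSet, (H.addMin u v x hx).lab ((img a b e i).map ι) =
            H.lab ((img a b e i).map ι) := by
          intro i e he
          apply addMin_lab_ne
          intro h
          apply hadj
          induction e using Sym2.ind with | _ p q => ?_
          have h1 : (img a b s(p, q) i).map ι ∈ H.graph.edgeSet := by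
            unfold img
            rw [Sym2.map_mk, Sym2.map_mk]
            exact hH.adj p q i he
          rw [h] at h1
          exact h1
        have hgood : Good F G a b ι (H.addMin u v x hx) := by
          refine ⟨hcon, ?_, ?_, ?_⟩
          · intro p q i h
            exact Or.inl (hH.adj p q i h)
          · intro i e he f hf h
            rw [hlab i e he, hlab i f hf]
            exact hH.ord i e he f hf h
          · intro p q h
            rcases h with h | h
            · exact hH.supp p q h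
            · rw [SimpleGraph.edge_adj] at h
              rcases h.1 with h1 | h1
              · rw [h1.1, h1.2]
                exact ⟨hu, hv⟩
              · rw [h1.1, h1.2]
                exact ⟨hv, hu⟩
        have h1 : (H.addMin u v x hx).graph.edgeSet.ncard ≤ sSup S :=
          le_csSup hSb ⟨_, hgood, rfl⟩
        have h2 : H.graph.edgeSet.ncard < (H.addMin u v x hx).graph.edgeSet.ncard := by
          apply Set.ncard_lt_ncard _ (Set.toFinite _)
          rw [Set.ssubset_iff_of_subset]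
          · refine ⟨s(u, v), ?_, hadj⟩
            right
            rw [SimpleGraph.edge_adj]
            exact ⟨Or.inl ⟨rfl, rfl⟩, huv⟩
          · apply SimpleGraph.edgeSet_mono
            exact le_sup_left
        omega
      · exact hH.outside hab hiso hmin hG R ι.injective hadj x hx v u hu huv.symm Sym2.eq_swap
    · exact hH.outside hab hiso hmin hG R ι.injective hadj x hx u v hv huv rfl
  · have h1 : H.graph.edgeSet ⊆ Sym2.map ι '' (Set.univ : Set (Sym2 (V × Fin 3))) := by
      intro e he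
      induction e using Sym2.ind with | _ p q => ?_
      obtain ⟨⟨p', rfl⟩, ⟨q', rfl⟩⟩ := hH.supp p q he
      exact ⟨s(p', q'), Set.mem_univ _, by rw [Sym2.map_mk]⟩
    calc H.graph.edgeSet.ncard
        ≤ (Sym2.map ι '' (Set.univ : Set (Sym2 (V × Fin 3)))).ncard :=
          Set.ncard_le_ncard h1 (Set.toFinite _)
      _ ≤ (Set.univ : Set (Sym2 (V × Fin 3))).ncard := Set.ncard_image_le (Set.toFinite _)
      _ = _ := by rw [Set.ncard_univ, Nat.card_eq_fintype_card]

/-- the same with `satM` -/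
theorem satM_le (F : EOG V) (a0 b0 : V) (hab : F.graph.Adj a0 b0)
    (hiso : ∀ w, (F.graph.Adj a0 w → w = b0) ∧ (F.graph.Adj b0 w → w = a0))
    (hmin : ∀ e ∈ F.graph.edgeSet, e ≠ s(a0, b0) → F.lab s(a0, b0) < F.lab e)
    (hn : 3 * Fintype.card V ≤ n) :
    (∃ H : EOG (Fin n), Saturated F H ∧ H.graph.edgeSet.ncard = satM n F) ∧
      satM n F ≤ Fintype.card (Sym2 (V × Fin 3)) := by
  obtain ⟨H, h1, h2⟩ := exists_saturated F a0 b0 hab hiso hmin hn
  have hne : {k | ∃ H : EOG (Fin n), Saturated F H ∧ H.graph.edgeSet.ncard = k}.Nonempty :=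
    ⟨_, H, h1, rfl⟩
  refine ⟨Nat.sInf_mem hne, le_trans ?_ h2⟩
  unfold satM
  exact Nat.sInf_le ⟨H, h1, rfl⟩

end

end Pool.Agent.Q110.EO
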